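import Mathlib

universe a

namespace Pool.Agent.MP0fc137

/-- The variables of the pattern, in structured form. -/
inductive V : Type
  | u | v | w
  | C (j : ℕ) | k (j : ℕ) | p (j : ℕ) | q (j : ℕ) | r (j : ℕ) | s (j : ℕ) | t (j : ℕ)

/-- Numbering of the structured variables. -/
def V.num : V → ℕ
  | .u => 0
  | .v => 1
  | .w => 2
  | .C j => 7 * j + 3
  | .k j => 7 * j + 4
  | .p j => 7 * j + 5
  | .q j => 7 * j + 6
  | .r j => 7 * j + 7
  | .s j => 7 * j + 8
  | .t j => 7 * j + 9

theorem V.num_injective : Function.Injective V.num := by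
  intro x y h
  cases x <;> cases y <;> simp only [V.num] at h <;> first | rfl | (exfalso; omega) | skip
  all_goals
    congr 1
    omega

/-- The variable of `ℕ+` attached to a structured variable. -/
def V.ι (x : V) : ℕ+ := Nat.succPNat x.num

theorem V.ι_injective : Function.Injective V.ι :=
  Nat.succPNat_injective.comp V.num_injective

variable {S : Type a}

/-- Applying a letter-fixing map of variables to a word. -/
def app {B : Type*} {X : Type*} (s : B → List X) (l : S → List X) (W : List (B ⊕ S)) : List X :=
  W.flatMap (Sum.elim s l)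

/-- The block `u u v v w w`. -/
def K : List V := [.u, .u, .v, .v, .w, .w]

/-- The four segments of the place `Q_j`. -/
def segQ (x : ℕ → S) (j : ℕ) : List (List V × S) :=
  [([V.p j] ++ K, x j), (K ++ [V.q j], x j), ([V.C j], x j), ([V.r j], x 0)]

/-- The segment of the place `R_0`. -/
def segR0 (x : ℕ → S) : List V × S := (K ++ [V.k 0, V.C 0, V.s 0], x 0)

/-- The segment of the place `R_{j+1}`. -/
def segR (x : ℕ → S) (j : ℕ) : List V × S :=
  ([V.t j] ++ K ++ [V.k j] ++ K ++ [V.k (j + 1), V.C (j + 1), V.s (j + 1)], x 0)

/-- The segment of the last place. -/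
def segD (M : ℕ) (x : ℕ → S) : List V × S := ([V.t M, V.k M], x 0)

/-- All segments. -/
def segs (M : ℕ) (x : ℕ → S) : List (List V × S) :=
  (List.range (M + 1)).flatMap (segQ x) ++ [segR0 x] ++ (List.range M).map (segR x) ++ [segD M x]

/-- A segment followed by its letter. -/
def piece (P : List V × S) : List (V ⊕ S) := P.1.map Sum.inl ++ [Sum.inr P.2]

/-- The pattern in structured form. -/
def word (M : ℕ) (x : ℕ → S) : List (V ⊕ S) := (segs M x).flatMap piece

/-- Substitution on structured words. -/
def sub (s : V → List S) (W : List (V ⊕ S)) : List S := W.flatMap (Sum.elim s fun l => [l])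

theorem sub_append (s : V → List S) (W W' : List (V ⊕ S)) : sub s (W ++ W') = sub s W ++ sub s W' :=
  List.flatMap_append

theorem sub_piece (s : V → List S) (P : List V × S) : sub s (piece P) = P.1.flatMap s ++ [P.2] := by
  simp [sub, piece, List.flatMap_append, List.flatMap_map]

theorem sub_word (s : V → List S) (M : ℕ) (x : ℕ → S) :
    sub s (word M x) =
      (List.range (M + 1)).flatMap (fun j => (segQ x j).flatMap fun P => P.1.flatMap s ++ [P.2]) ++
      ((segR0 x).1.flatMap s ++ [x 0]) ++
      (List.range M).flatMap (fun j => (segR x j).1.flatMap s ++ [x 0]) ++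
      ((segD M x).1.flatMap s ++ [x 0]) := by
  have h : sub s (word M x) = (segs M x).flatMap fun P => P.1.flatMap s ++ [P.2] := by
    unfold word sub
    rw [List.flatMap_assoc]
    congr 1
    funext P
    exact sub_piece s P
  rw [h]
  unfold segs
  simp only [List.flatMap_append, List.flatMap_assoc, List.flatMap_map, List.flatMap_cons,
    List.flatMap_nil, List.append_nil]
  rfl

section Ambiguity

variable (M : ℕ) (x : ℕ → S) (s : V → List S) (l : ℕ) (K1 K2 : List S)

/-- The image of the block `K`. -/
def sK : List S := s .u ++ s .u ++ s .v ++ s .v ++ s .w ++ s .w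

/-- The second substitution in the case that the letter `x l` occurs in `σ(K)`. -/
def T : V → List S
  | .u => []
  | .v => []
  | .w => []
  | .C j => if j = l then K1 else s (.C j)
  | .k j => if l ≤ j then [] else sK s ++ s (.k j)
  | .p j => s (.p j) ++ (if j = l then K1 else sK s)
  | .q j => if j = l then K2 else sK s ++ s (.q j)
  | .r j => if j = l then K2 ++ s (.q j) ++ [x l] ++ s (.C j) ++ [x l] ++ s (.r j) else s (.r j)
  | .s j => if j = l then [x l] ++ K2 ++ s (.k j) ++ s (.C j) ++ s (.s j) else s (.s j)
  | .t j => if j = M then s (.t j) ++ s (.k j) else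
      if l ≤ j then s (.t j) ++ sK s ++ s (.k j) ++ sK s ++ s (.k (j + 1)) else s (.t j)

theorem K_flatMap : K.flatMap s = sK s := by
  simp [K, sK]

theorem sK_T : sK (T M x s l K1 K2) = [] := by
  simp [sK, T]

theorem sub_T (hl : l ≤ M) (hK : sK s = K1 ++ x l :: K2) :
    sub (T M x s l K1 K2) (word M x) = sub s (word M x) := by
  rw [sub_word, sub_word]
  have h1 : (List.range (M + 1)).flatMap
      (fun j => (segQ x j).flatMap fun P => P.1.flatMap (T M x s l K1 K2) ++ [P.2]) =
      (List.range (M + 1)).flatMap
      (fun j => (segQ x j).flatMap fun P => P.1.flatMap s ++ [P.2]) := by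
    apply List.flatMap_congr
    intro j _
    simp only [segQ, List.flatMap_cons, List.flatMap_nil, List.flatMap_append, K_flatMap,
      sK_T, List.append_nil, List.nil_append]
    by_cases hj : j = l
    · subst hj
      simp [T, hK]
    · simp [T, hj]
  have h2 : (segR0 x).1.flatMap (T M x s l K1 K2) = (segR0 x).1.flatMap s := by
    simp only [segR0, List.flatMap_cons, List.flatMap_nil, List.flatMap_append, K_flatMap,
      sK_T, List.append_nil, List.nil_append]
    by_cases hj : l = 0
    · subst hj
      simp [T, hK]
    · simp [T, hj, Ne.symm hj]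
  have h3 : (List.range M).flatMap
      (fun j => (segR x j).1.flatMap (T M x s l K1 K2) ++ [x 0]) =
      (List.range M).flatMap (fun j => (segR x j).1.flatMap s ++ [x 0]) := by
    apply List.flatMap_congr
    intro j hj
    have hjM : j < M := List.mem_range.1 hj
    simp only [segR, List.flatMap_cons, List.flatMap_nil, List.flatMap_append, K_flatMap,
      sK_T, List.append_nil, List.nil_append]
    rcases lt_trichotomy l (j + 1) with h | h | h
    · have h' : l ≤ j := by omega
      simp [T, hjM.ne, h', h.le, h.ne']
    · subst h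
      simp [T, hjM.ne, hK]
    · have h' : ¬ l ≤ j := by omega
      have h'' : ¬ l ≤ j + 1 := by omega
      simp [T, hjM.ne, h', h'', h.ne]
  have h4 : (segD M x).1.flatMap (T M x s l K1 K2) = (segD M x).1.flatMap s := by
    simp [segD, T, hl]
  rw [h1, h2, h3, h4]

/-- The second substitution in the case that no `x l` occurs in `σ(K)`. -/
def T' : V → List S
  | .u => s .u ++ s .v
  | .v => s .w
  | .w => []
  | .C j => s (.C j)
  | .k j => s (.k j)
  | .p j => s (.p j)
  | .q j => s (.q j)
  | .r j => s (.r j)
  | .s j => s (.s j)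
  | .t j => s (.t j)

theorem sub_T' (hc : s .u ++ s .v = s .v ++ s .u) :
    sub (T' s) (word M x) = sub s (word M x) := by
  have hK : K.flatMap (T' s) = K.flatMap s := by
    simp only [K, T', List.flatMap_cons, List.flatMap_nil, List.append_nil, List.append_assoc]
    rw [← List.append_assoc (s .v) (s .u), ← hc]
    simp
  rw [sub_word, sub_word]
  simp only [segQ, segR0, segR, segD, List.flatMap_cons, List.flatMap_nil, List.flatMap_append, hK]
  simp [T']

end Ambiguity

theorem commute_of_two {B : S} {l1 l2 : List S} (h1 : ∀ y ∈ l1, y = B) (h2 : ∀ y ∈ l2, y = B) :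
    l1 ++ l2 = l2 ++ l1 := by
  rw [List.eq_replicate_of_mem h1, List.eq_replicate_of_mem h2]
  rw [← List.replicate_add, ← List.replicate_add, Nat.add_comm]

theorem ambiguity (M : ℕ) (x : ℕ → S) (d e : S)
    (hx : ∀ A : S, A = d ∨ A = e ∨ ∃ j ≤ M, x j = A)
    (s : V → List S) (A : S) (hw : A ∈ s .w) (hu : A ∉ s .u) (hv : A ∉ s .v) :
    ∃ t : V → List S, sub t (word M x) = sub s (word M x) ∧ t .w = [] := by
  by_cases h : ∃ l ≤ M, x l ∈ sK s
  · obtain ⟨l, hl, hmem⟩ := h
    obtain ⟨K1, K2, hK⟩ := List.append_of_mem hmem
    exact ⟨T M x s l K1 K2, sub_T M x s l K1 K2 hl hK, rfl⟩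
  · push Not at h
    refine ⟨T' s, sub_T' M x s ?_, rfl⟩
    have key : ∀ y ∈ sK s, y = d ∨ y = e := by
      intro y hy
      rcases hx y with h1 | h1 | ⟨j, hj, rfl⟩
      · exact Or.inl h1
      · exact Or.inr h1
      · exact absurd hy (h j hj)
    have hA : A = d ∨ A = e := key A (by simp [sK, hw])
    rcases hA with rfl | rfl
    · apply commute_of_two (B := e)
      · intro y hy
        rcases key y (by simp [sK, hy]) with h1 | h1
        · exact absurd (h1 ▸ hy) hu
        · exact h1
      · intro y hy
        rcases key y (by simp [sK, hy]) with h1 | h1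
        · exact absurd (h1 ▸ hy) hv
        · exact h1
    · apply commute_of_two (B := d)
      · intro y hy
        rcases key y (by simp [sK, hy]) with h1 | h1
        · exact h1
        · exact absurd (h1 ▸ hy) hu
      · intro y hy
        rcases key y (by simp [sK, hy]) with h1 | h1
        · exact h1
        · exact absurd (h1 ▸ hy) hv

end Pool.Agent.MP0fc137
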