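import Mathlib

universe a

namespace Pool.Agent.MP0fc137

/-- Words over variables `1, 2, 3, …` (the elements of `ℕ+`, embedded by `Sum.inl`) and letters
(the elements of `S`, embedded by `Sum.inr`): the free monoid `(ℕ ∪ Σ)^*`. -/
abbrev PWord (S : Type a) := FreeMonoid (ℕ+ ⊕ S)

variable {S : Type a}

/-- The variable `i`, as a word of length one. -/
def varWord (i : ℕ+) : PWord S := FreeMonoid.of (Sum.inl i)

/-- The letter `A`, as a word of length one over variables and letters. -/
def letterWord (A : S) : PWord S := FreeMonoid.of (Sum.inr A)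

/-- A pattern is a nonempty word over variables and letters. -/
def IsPattern (α : PWord S) : Prop := α ≠ 1

/-- `i ∈ var(α)`: the variable `i` occurs in `α`. -/
def InVar (i : ℕ+) (α : PWord S) : Prop := Sum.inl i ∈ FreeMonoid.toList α

/-- `A ∈ term(α)`: the letter `A` occurs in `α`. -/
def InTerm (A : S) (α : PWord S) : Prop := Sum.inr A ∈ FreeMonoid.toList α

/-- `|w|_x`: the number of occurrences of the symbol `x` in the word `w`. -/
def occ {X : Type a} [DecidableEq X] (w : FreeMonoid X) (x : X) : ℕ :=
  (FreeMonoid.toList w).count x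

/-- `tf(α)`: the word obtained from `α` by deleting all letters. -/
def tf (α : PWord S) : PWord S :=
  FreeMonoid.ofList ((FreeMonoid.toList α).filter fun x => x.isLeft)

/-- A morphism `(ℕ ∪ Σ)^* → (ℕ ∪ Σ)^*` fixing every letter. -/
def FixesLetters (φ : PWord S →* PWord S) : Prop := ∀ A : S, φ (letterWord A) = letterWord A

/-- A substitution: a morphism `σ : (ℕ ∪ Σ)^* → Σ^*` with `σ(A) = A` for every letter `A`. -/
def IsSubstitution (σ : PWord S →* FreeMonoid S) : Prop := ∀ A : S, σ (letterWord A) = FreeMonoid.of A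

/-- `α` is quasi-terminal-free on `Σ`: at least two letters do not occur in `α`. -/
def QuasiTerminalFree (α : PWord S) : Prop :=
  ∃ A B : S, A ≠ B ∧ ¬ InTerm A α ∧ ¬ InTerm B α

/-- `α` is morphically primitive: there is no pattern `β` shorter than `α` and no morphisms
`φ, ψ` fixing every letter with `φ(α) = β` and `ψ(β) = α`. -/
def MorphicallyPrimitive (α : PWord S) : Prop :=
  ¬ ∃ β : PWord S, IsPattern β ∧ β.length < α.length ∧
    ∃ φ ψ : PWord S →* PWord S, FixesLetters φ ∧ FixesLetters ψ ∧ φ α = β ∧ ψ β = α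

/-- `σ` is a telltale candidate for `j` (with respect to `α`): a substitution such that for some
letter `A` one has `|σ(j)|_A = 1` and `|σ(tf(α))|_A = |α|_j`. -/
def IsTelltaleCandidate [DecidableEq S] (σ : PWord S →* FreeMonoid S) (α : PWord S) (j : ℕ+) :
    Prop :=
  IsSubstitution σ ∧
    ∃ A : S, occ (σ (varWord j)) A = 1 ∧
      occ (σ (tf α)) A = occ α (Sum.inl j)

/-- `σ` is substantially ambiguous for `j` in `α`: some substitution `τ` satisfies
`τ(α) = σ(α)` and `τ(j) = ε`. -/
def SubstantiallyAmbiguous (σ : PWord S →* FreeMonoid S) (α : PWord S) (j : ℕ+) : Prop :=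
  ∃ τ : PWord S →* FreeMonoid S, IsSubstitution τ ∧ τ α = σ α ∧ τ (varWord j) = 1

end Pool.Agent.MP0fc137
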