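import Pool.Agent.Lib.MP_0fc137_lc.Comb

universe a

namespace Pool.Agent.MP0fc137

theorem unique_split {X : Type*} {a b a' b' : List X} {y : X} (h : a ++ y :: b = a' ++ y :: b')
    (ha : y ∉ a') (hb : y ∉ b') : a = a' ∧ b = b' := by
  induction a' generalizing a with
  | nil =>
    cases a with
    | nil => simpa using h
    | cons z a =>
      simp only [List.cons_append, List.nil_append, List.cons.injEq] at h
      obtain ⟨_, h⟩ := h
      exact absurd (h ▸ (by simp : y ∈ a ++ y :: b)) hb
  | cons c a' ih =>
    cases a with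
    | nil =>
      simp only [List.cons_append, List.nil_append, List.cons.injEq] at h
      exact absurd (h.1 ▸ (List.mem_cons_self)) ha
    | cons z a =>
      simp only [List.cons_append, List.cons.injEq] at h
      have := ih h.2 (fun hm => ha (List.mem_cons_of_mem _ hm))
      exact ⟨by rw [h.1, this.1], this.2⟩

section

variable {M : ℕ} {g : V → List V}

/-- The image of the block `K` under `g`. -/
def κ (g : V → List V) : List V := g .u ++ g .u ++ g .v ++ g .v ++ g .w ++ g .w

theorem K_flatMap' : K.flatMap g = κ g := by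
  simp [K, κ]

theorem κ_cases (h1 : g (.p 0) ++ κ g = [V.p 0] ++ K) (h2 : κ g ++ g (.q 0) = K ++ [V.q 0]) :
    κ g = [] ∨ κ g = K := by
  have hev : (κ g).length = 2 * ((g .u).length + (g .v).length + (g .w).length) := by
    simp [κ]; omega
  have hlen : (g (.p 0)).length + (κ g).length = 7 := by
    have := congrArg List.length h1
    simpa [K] using this
  have e1 : κ g = ([V.p 0] ++ K).drop (g (.p 0)).length := by
    rw [← h1]; simp
  have e2 : κ g = (K ++ [V.q 0]).take (κ g).length := by
    rw [← h2]; simp
  have e3 : κ g = (K ++ [V.q 0]).take (7 - (g (.p 0)).length) := by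
    rw [show 7 - (g (.p 0)).length = (κ g).length by omega]
    exact e2
  have hn : (g (.p 0)).length ≤ 7 := by omega
  generalize (g (.p 0)).length = n at *
  generalize κ g = kk at *
  interval_cases n
  · omega
  · right; simpa [K] using e1
  · omega
  · rw [e1] at e3; simp [K] at e3
  · omega
  · rw [e1] at e3; simp [K] at e3
  · omega
  · left; simpa [K] using e1

theorem uvw_fixed (h : κ g = K) : g .u = [.u] ∧ g .v = [.v] ∧ g .w = [.w] := by
  unfold κ K at h
  generalize g .u = U at *
  generalize g .v = W at *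
  generalize g .w = Z at *
  have hl : U.length + W.length + Z.length = 3 := by
    have := congrArg List.length h
    simp at this
    omega
  rcases U with _ | ⟨u1, _ | ⟨u2, _ | ⟨u3, _ | ⟨u4, U⟩⟩⟩⟩ <;>
  rcases W with _ | ⟨v1, _ | ⟨v2, _ | ⟨v3, _ | ⟨v4, W⟩⟩⟩⟩ <;>
  rcases Z with _ | ⟨w1, _ | ⟨w2, _ | ⟨w3, _ | ⟨w4, Z⟩⟩⟩⟩ <;>
  simp only [List.length_nil, List.length_cons] at hl <;>
  first
    | (exfalso; omega)
    | (clear hl
       simp only [List.nil_append, List.append_nil, List.cons_append, List.cons.injEq] at h ⊢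
       grind)

/-- The equations satisfied by `g`. -/
structure Eqs (M : ℕ) (g : V → List V) : Prop where
  p : ∀ j ≤ M, g (.p j) ++ κ g = [V.p j] ++ K
  q : ∀ j ≤ M, κ g ++ g (.q j) = K ++ [V.q j]
  C : ∀ j ≤ M, g (.C j) = [V.C j]
  r : ∀ j ≤ M, g (.r j) = [V.r j]
  R0 : κ g ++ (g (.k 0) ++ V.C 0 :: g (.s 0)) = K ++ ([V.k 0] ++ V.C 0 :: [V.s 0])
  R : ∀ j < M, (g (.t j) ++ κ g ++ g (.k j) ++ κ g ++ g (.k (j + 1))) ++
    V.C (j + 1) :: g (.s (j + 1)) =
    ([V.t j] ++ K ++ [V.k j] ++ K ++ [V.k (j + 1)]) ++ V.C (j + 1) :: [V.s (j + 1)]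
  D : g (.t M) ++ g (.k M) = [V.t M, V.k M]

theorem Eqs.κ_ne (h : Eqs M g) : κ g ≠ [] := by
  intro h0
  have hk : ∀ j ≤ M, g (.k j) = K ++ [V.k j] := by
    intro j
    induction j with
    | zero =>
      intro _
      have e := h.R0
      rw [h0, List.nil_append, ← List.append_assoc] at e
      exact (unique_split e (by simp [K]) (by simp)).1
    | succ j ih =>
      intro hj
      have e := (unique_split (h.R j (by omega)) (by simp [K]) (by simp)).1
      rw [h0, ih (by omega)] at e
      have e' : (g (.t j) ++ K) ++ V.k j :: g (.k (j + 1)) =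
          ([V.t j] ++ K) ++ V.k j :: (K ++ [V.k (j + 1)]) := by
        simpa using e
      exact (unique_split e' (by simp [K]) (by simp [K])).2
  have e := h.D
  rw [hk M le_rfl] at e
  have := congrArg List.length e
  simp [K] at this

theorem Eqs.κ_eq (h : Eqs M g) : κ g = K :=
  (κ_cases (h.p 0 (Nat.zero_le _)) (h.q 0 (Nat.zero_le _))).resolve_left h.κ_ne

theorem Eqs.fixed_p (h : Eqs M g) {j : ℕ} (hj : j ≤ M) : g (.p j) = [V.p j] := by
  have := h.p j hj
  rw [h.κ_eq] at this
  exact List.append_cancel_right this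

theorem Eqs.fixed_q (h : Eqs M g) {j : ℕ} (hj : j ≤ M) : g (.q j) = [V.q j] := by
  have := h.q j hj
  rw [h.κ_eq] at this
  exact List.append_cancel_left this

theorem Eqs.fixed_ks (h : Eqs M g) : ∀ j ≤ M, g (.k j) = [V.k j] ∧ g (.s j) = [V.s j] := by
  have e := h.R0
  rw [h.κ_eq] at e
  have e0 := unique_split (List.append_cancel_left e) (by simp) (by simp)
  intro j
  induction j with
  | zero => exact fun _ => e0
  | succ j ih =>
    intro hj
    have e1 := unique_split (h.R j (by omega)) (by simp [K]) (by simp)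
    refine ⟨?_, e1.2⟩
    have e2 := e1.1
    rw [h.κ_eq, (ih (by omega)).1] at e2
    have e' : (g (.t j) ++ K) ++ V.k j :: (K ++ g (.k (j + 1))) =
          ([V.t j] ++ K) ++ V.k j :: (K ++ [V.k (j + 1)]) := by
        simpa using e2
    exact List.append_cancel_left (unique_split e' (by simp [K]) (by simp [K])).2

theorem Eqs.fixed_t (h : Eqs M g) : ∀ j ≤ M, g (.t j) = [V.t j] := by
  intro j hj
  rcases Nat.lt_or_ge j M with hlt | hge
  · have e1 := unique_split (h.R j hlt) (by simp [K]) (by simp)
    have e2 := e1.1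
    rw [h.κ_eq, (h.fixed_ks j (by omega)).1] at e2
    have e' : (g (.t j) ++ K) ++ V.k j :: (K ++ g (.k (j + 1))) =
          ([V.t j] ++ K) ++ V.k j :: (K ++ [V.k (j + 1)]) := by
        simpa using e2
    exact List.append_cancel_right (unique_split e' (by simp [K]) (by simp [K])).1
  · obtain rfl : j = M := by omega
    have e := h.D
    rw [(h.fixed_ks j le_rfl).1] at e
    exact List.append_cancel_right (bs := [V.k j]) e

/-- The variables of the pattern. -/
def Occurs (M : ℕ) : V → Prop
  | .u => True
  | .v => True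
  | .w => True
  | .C j => j ≤ M
  | .k j => j ≤ M
  | .p j => j ≤ M
  | .q j => j ≤ M
  | .r j => j ≤ M
  | .s j => j ≤ M
  | .t j => j ≤ M

theorem Eqs.fixed (h : Eqs M g) {y : V} (hy : Occurs M y) : g y = [y] := by
  cases y with
  | u => exact (uvw_fixed h.κ_eq).1
  | v => exact (uvw_fixed h.κ_eq).2.1
  | w => exact (uvw_fixed h.κ_eq).2.2
  | C j => exact h.C j hy
  | k j => exact (h.fixed_ks j hy).1
  | p j => exact h.fixed_p hy
  | q j => exact h.fixed_q hy
  | r j => exact h.r j hy
  | s j => exact (h.fixed_ks j hy).2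
  | t j => exact h.fixed_t j hy

variable {S : Type a} {x : ℕ → S}

theorem occurs_of_mem {P : List V × S} (hP : P ∈ segs M x) {y : V} (hy : y ∈ P.1) :
    Occurs M y := by
  simp only [segs, List.mem_append, List.mem_flatMap, List.mem_range, List.mem_map,
    List.mem_singleton] at hP
  rcases hP with ((⟨j, hj, hP⟩ | rfl) | ⟨j, hj, rfl⟩) | rfl
  · simp only [segQ, List.mem_cons, List.not_mem_nil, or_false] at hP
    rcases hP with rfl | rfl | rfl | rfl
    · simp only [K, List.mem_append, List.mem_cons, List.not_mem_nil, or_false] at hy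
      rcases hy with rfl | rfl | rfl | rfl | rfl | rfl | rfl <;> simp only [Occurs]
      omega
    · simp only [K, List.mem_append, List.mem_cons, List.not_mem_nil, or_false] at hy
      rcases hy with (rfl | rfl | rfl | rfl | rfl | rfl) | rfl <;> simp only [Occurs]
      omega
    · simp only [List.mem_cons, List.not_mem_nil, or_false] at hy
      subst hy
      simp only [Occurs]; omega
    · simp only [List.mem_cons, List.not_mem_nil, or_false] at hy
      subst hy
      simp only [Occurs]; omega
  · simp only [segR0, K, List.mem_append, List.mem_cons, List.not_mem_nil, or_false] at hy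
    rcases hy with (rfl | rfl | rfl | rfl | rfl | rfl) | (rfl | rfl | rfl) <;>
      simp only [Occurs, Nat.zero_le]
  · simp only [segR, K, List.mem_append, List.mem_cons, List.not_mem_nil, or_false] at hy
    rcases hy with (((rfl | (rfl | rfl | rfl | rfl | rfl | rfl)) | rfl) |
      (rfl | rfl | rfl | rfl | rfl | rfl)) | (rfl | rfl | rfl) <;>
      simp only [Occurs] <;> omega
  · simp only [segD, List.mem_cons, List.not_mem_nil, or_false] at hy
    rcases hy with rfl | rfl <;> simp only [Occurs, le_refl]

theorem eqs_of_segs (h : ∀ P ∈ segs M x, P.1.flatMap g = P.1) : Eqs M g := by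
  have hmemQ : ∀ j ≤ M, ∀ P ∈ segQ x j, P ∈ segs M x := by
    intro j hj P hP
    simp only [segs, List.mem_append, List.mem_flatMap, List.mem_range]
    exact Or.inl (Or.inl (Or.inl ⟨j, by omega, hP⟩))
  have hC : ∀ j ≤ M, g (.C j) = [V.C j] := by
    intro j hj
    have := h ([V.C j], x j) (hmemQ j hj _ (by simp [segQ]))
    simpa using this
  constructor
  · intro j hj
    have := h ([V.p j] ++ K, x j) (hmemQ j hj _ (by simp [segQ]))
    simpa [List.flatMap_append, K_flatMap'] using this
  · intro j hj
    have := h (K ++ [V.q j], x j) (hmemQ j hj _ (by simp [segQ]))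
    simpa [List.flatMap_append, K_flatMap'] using this
  · exact hC
  · intro j hj
    have := h ([V.r j], x 0) (hmemQ j hj _ (by simp [segQ]))
    simpa using this
  · have := h (segR0 x) (by simp [segs])
    simpa [segR0, List.flatMap_append, K_flatMap', hC 0 (Nat.zero_le _)] using this
  · intro j hj
    have := h (segR x j) (by
      simp only [segs, List.mem_append, List.mem_map, List.mem_range]
      exact Or.inl (Or.inr ⟨j, hj, rfl⟩))
    simpa [segR, List.flatMap_append, K_flatMap', hC (j + 1) hj] using this
  · have := h (segD M x) (by simp [segs])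
    simpa [segD] using this

end

end Pool.Agent.MP0fc137
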