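import Pool.Agent.Lib.MP_0fc137_lc.Defs
import Pool.Agent.Lib.MP_0fc137_lc.Prim

universe a

namespace Pool.Agent.MP0fc137

variable {S : Type a}

theorem toList_hom {X Y : Type a} (φ : FreeMonoid X →* FreeMonoid Y) (L : List X) :
    FreeMonoid.toList (φ (FreeMonoid.ofList L)) =
      L.flatMap fun z => FreeMonoid.toList (φ (FreeMonoid.of z)) := by
  induction L with
  | nil => simp
  | cons z L ih =>
    rw [FreeMonoid.ofList_cons, map_mul, FreeMonoid.toList_mul, ih, List.flatMap_cons]

/-- The embedding of structured symbols. -/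
def emb : V ⊕ S → ℕ+ ⊕ S := Sum.map V.ι id

/-- The pattern. -/
def pat (M : ℕ) (x : ℕ → S) : PWord S := FreeMonoid.ofList ((word M x).map emb)

theorem toList_hom_pat {Y : Type a} (φ : PWord S →* FreeMonoid Y) (M : ℕ) (x : ℕ → S) :
    FreeMonoid.toList (φ (pat M x)) =
      (word M x).flatMap fun z => FreeMonoid.toList (φ (FreeMonoid.of (emb z))) := by
  rw [pat, toList_hom, List.flatMap_map]

theorem toList_subst {σ : PWord S →* FreeMonoid S} (hσ : IsSubstitution σ) (M : ℕ) (x : ℕ → S) :
    FreeMonoid.toList (σ (pat M x)) = sub (fun y => FreeMonoid.toList (σ (varWord y.ι))) (word M x) := by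
  rw [toList_hom_pat, sub]
  congr 1
  funext z
  rcases z with y | A
  · rfl
  · have := hσ A
    simp only [letterWord] at this
    simp [emb, this]

/-- The substitution with prescribed values on the structured variables. -/
noncomputable def mk (t : V → List S) : PWord S →* FreeMonoid S :=
  FreeMonoid.lift (Sum.elim
    (fun n => FreeMonoid.ofList (Function.extend V.ι t (fun _ => []) n)) FreeMonoid.of)

theorem mk_var (t : V → List S) (y : V) : FreeMonoid.toList (mk t (varWord y.ι)) = t y := by
  simp [mk, varWord, V.ι_injective.extend_apply]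

theorem mk_subst (t : V → List S) : IsSubstitution (mk t) := by
  intro A
  simp [mk, letterWord]

theorem mem_pat_iff {M : ℕ} {x : ℕ → S} {z : ℕ+ ⊕ S} :
    z ∈ FreeMonoid.toList (pat M x) ↔ ∃ y ∈ word M x, emb y = z := by
  simp [pat]

theorem mem_word {M : ℕ} {x : ℕ → S} {P : List V × S} (hP : P ∈ segs M x) {y : V} (hy : y ∈ P.1) :
    Sum.inl y ∈ word M x := by
  rw [word, List.mem_flatMap]
  exact ⟨P, hP, by simp [piece, hy]⟩

theorem K_mem_word {M : ℕ} {x : ℕ → S} {y : V} (hy : y ∈ K) : Sum.inl y ∈ word M x :=
  mem_word (P := segR0 x) (by simp [segs]) (by simp [segR0, hy])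

section Count

variable {X : Type*} [DecidableEq X] {Y : Type*} [DecidableEq Y] (c : X → Bool) (f : X → List Y)
  (j : X) (A : Y)

theorem count_ge (hj : (f j).count A = 1) (hc : c j = true) (L : List X) :
    L.count j ≤ ((L.filter c).flatMap f).count A := by
  induction L with
  | nil => simp
  | cons z L ih =>
    by_cases hz : z = j
    · subst hz
      rw [List.filter_cons_of_pos hc, List.flatMap_cons, List.count_append, hj,
        List.count_cons_self]
      omega
    · rw [List.count_cons_of_ne hz]
      by_cases hcz : c z = true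
      · rw [List.filter_cons_of_pos hcz, List.flatMap_cons, List.count_append]
        omega
      · rw [List.filter_cons_of_neg hcz]
        exact ih

theorem count_ge' (hj : (f j).count A = 1) (hc : c j = true) {i : X} (hij : i ≠ j)
    (hi : c i = true) (L : List X) (hiL : i ∈ L) :
    L.count j + (f i).count A ≤ ((L.filter c).flatMap f).count A := by
  induction L with
  | nil => simp at hiL
  | cons z L ih =>
    by_cases hz : z = i
    · subst hz
      have h1 := count_ge c f j A hj hc L
      rw [List.count_cons_of_ne hij, List.filter_cons_of_pos hi, List.flatMap_cons,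
        List.count_append]
      omega
    · have hi' : i ∈ L := by
        rcases List.mem_cons.1 hiL with h | h
        · exact absurd h.symm hz
        · exact h
      have ih' := ih hi'
      by_cases hzj : z = j
      · subst hzj
        rw [List.filter_cons_of_pos hc, List.flatMap_cons, List.count_append, hj,
          List.count_cons_self]
        omega
      · rw [List.count_cons_of_ne hzj]
        by_cases hcz : c z = true
        · rw [List.filter_cons_of_pos hcz, List.flatMap_cons, List.count_append]
          omega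
        · rw [List.filter_cons_of_neg hcz]
          exact ih'

end Count

theorem pat_ambiguous [DecidableEq S] (M : ℕ) (x : ℕ → S) (d e : S)
    (hx : ∀ A : S, A = d ∨ A = e ∨ ∃ j ≤ M, x j = A) (σ : PWord S →* FreeMonoid S)
    (hσ : IsTelltaleCandidate σ (pat M x) (V.ι .w)) :
    SubstantiallyAmbiguous σ (pat M x) (V.ι .w) := by
  obtain ⟨hs, A, h1, h2⟩ := hσ
  have hcount : ∀ y : V, y ∈ K → y ≠ .w → A ∉ FreeMonoid.toList (σ (varWord y.ι)) := by
    intro y hy hyw
    have h3 := count_ge' (fun z : ℕ+ ⊕ S => z.isLeft)
      (fun z => FreeMonoid.toList (σ (FreeMonoid.of z))) (Sum.inl (V.ι .w)) A h1 rfl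
      (i := Sum.inl y.ι) (fun h => hyw (V.ι_injective (Sum.inl_injective h))) rfl
      (FreeMonoid.toList (pat M x)) (mem_pat_iff.2 ⟨_, K_mem_word hy, rfl⟩)
    have h4 : occ (σ (tf (pat M x))) A =
        (((FreeMonoid.toList (pat M x)).filter fun z => z.isLeft).flatMap
          fun z => FreeMonoid.toList (σ (FreeMonoid.of z))).count A := by
      rw [occ, tf, toList_hom]
    rw [← h4, h2, occ] at h3
    have h5 : (FreeMonoid.toList (σ (FreeMonoid.of (Sum.inl y.ι)))).count A = 0 := by omega
    exact List.count_eq_zero.1 h5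
  obtain ⟨t, ht, htw⟩ := ambiguity M x d e hx (fun y => FreeMonoid.toList (σ (varWord y.ι))) A
    (by
      have : 0 < (FreeMonoid.toList (σ (varWord (V.ι .w)))).count A := by
        have h1' := h1
        rw [occ] at h1'
        omega
      exact List.count_pos_iff.1 this)
    (hcount .u (by simp [K]) (by simp)) (hcount .v (by simp [K]) (by simp))
  refine ⟨mk t, mk_subst t, ?_, ?_⟩
  · apply FreeMonoid.toList.injective
    rw [toList_subst (mk_subst t), toList_subst hs, ← ht]
    congr 1
    funext y
    exact mk_var t y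
  · apply FreeMonoid.toList.injective
    rw [mk_var, htw]
    rfl

theorem pat_quasi (M : ℕ) (x : ℕ → S) (d e : S) (hde : d ≠ e) (hd : ∀ j, x j ≠ d)
    (he : ∀ j, x j ≠ e) : QuasiTerminalFree (pat M x) := by
  have key : ∀ B : S, InTerm B (pat M x) → ∃ j, x j = B := by
    intro B hB
    obtain ⟨y, hy, hyB⟩ := mem_pat_iff.1 hB
    rcases y with y | A
    · simp [emb] at hyB
    · simp only [emb, Sum.map_inr, id_eq, Sum.inr.injEq] at hyB
      subst hyB
      rw [word, List.mem_flatMap] at hy
      obtain ⟨P, hP, hPA⟩ := hy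
      simp only [piece, List.mem_append, List.mem_map, reduceCtorEq, and_false, exists_false,
        List.mem_cons, Sum.inr.injEq, List.not_mem_nil, or_false, false_or] at hPA
      subst hPA
      simp only [segs, List.mem_append, List.mem_flatMap, List.mem_range, List.mem_map,
        List.mem_singleton] at hP
      rcases hP with ((⟨j, _, hP⟩ | rfl) | ⟨j, _, rfl⟩) | rfl
      · simp only [segQ, List.mem_cons, List.not_mem_nil, or_false] at hP
        rcases hP with rfl | rfl | rfl | rfl <;> exact ⟨_, rfl⟩
      · exact ⟨_, rfl⟩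
      · exact ⟨_, rfl⟩
      · exact ⟨_, rfl⟩
  refine ⟨d, e, hde, ?_, ?_⟩
  · intro h
    obtain ⟨j, hj⟩ := key d h
    exact hd j hj
  · intro h
    obtain ⟨j, hj⟩ := key e h
    exact he j hj

theorem first_split {X : Type*} {a b a' b' : List X} {y : X} (h : a ++ y :: b = a' ++ y :: b')
    (ha : y ∉ a) (ha' : y ∉ a') : a = a' ∧ b = b' := by
  induction a generalizing a' with
  | nil =>
    cases a' with
    | nil => simpa using h
    | cons z a' =>
      simp only [List.cons_append, List.nil_append, List.cons.injEq] at h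
      exact absurd (h.1 ▸ List.mem_cons_self) ha'
  | cons c a ih =>
    cases a' with
    | nil =>
      simp only [List.cons_append, List.nil_append, List.cons.injEq] at h
      exact absurd (h.1 ▸ List.mem_cons_self) ha
    | cons z a' =>
      simp only [List.cons_append, List.cons.injEq] at h
      have := ih (a' := a') h.2 (fun hm => ha (List.mem_cons_of_mem _ hm))
        (fun hm => ha' (List.mem_cons_of_mem _ hm))
      exact ⟨by rw [h.1, this.1], this.2⟩

theorem peel (F F' : List V → List (ℕ+ ⊕ S)) (Ps : List (List V × S))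
    (h1 : ∀ P ∈ Ps, ∀ B : S, Sum.inr B ∉ F P.1) (h2 : ∀ P ∈ Ps, ∀ B : S, Sum.inr B ∉ F' P.1)
    (h : Ps.flatMap (fun P => F P.1 ++ [Sum.inr P.2]) =
      Ps.flatMap (fun P => F' P.1 ++ [Sum.inr P.2])) : ∀ P ∈ Ps, F P.1 = F' P.1 := by
  induction Ps with
  | nil => simp
  | cons Q Ps ih =>
    simp only [List.flatMap_cons, List.append_assoc, List.singleton_append] at h
    have h3 := first_split h (h1 Q (by simp) _) (h2 Q (by simp) _)
    intro P hP
    rcases List.mem_cons.1 hP with rfl | hP
    · exact h3.1
    · exact ih (fun P hP => h1 P (by simp [hP])) (fun P hP => h2 P (by simp [hP])) h3.2 P hP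

theorem letters_ge (G : ℕ+ ⊕ S → List (ℕ+ ⊕ S)) (hG : ∀ B : S, G (Sum.inr B) = [Sum.inr B])
    (L : List (ℕ+ ⊕ S)) :
    L.countP (fun z => z.isRight) ≤ (L.flatMap G).countP (fun z => z.isRight) := by
  induction L with
  | nil => simp
  | cons z L ih =>
    rcases z with n | B
    · simp only [List.countP_cons, List.flatMap_cons, List.countP_append, Sum.isRight_inl]
      simp
      omega
    · simp only [List.countP_cons, List.flatMap_cons, List.countP_append, Sum.isRight_inr, hG]
      simp
      omega

theorem letters_ge' (G : ℕ+ ⊕ S → List (ℕ+ ⊕ S)) (hG : ∀ B : S, G (Sum.inr B) = [Sum.inr B])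
    (L : List (ℕ+ ⊕ S)) (n : ℕ+) (hn : Sum.inl n ∈ L) :
    L.countP (fun z => z.isRight) + (G (Sum.inl n)).countP (fun z => z.isRight) ≤
      (L.flatMap G).countP (fun z => z.isRight) := by
  induction L with
  | nil => simp at hn
  | cons z L ih =>
    rcases List.mem_cons.1 hn with h | h
    · subst h
      have := letters_ge G hG L
      simp only [List.countP_cons, List.flatMap_cons, List.countP_append, Sum.isRight_inl]
      simp
      omega
    · have := ih h
      rcases z with m | B
      · simp only [List.countP_cons, List.flatMap_cons, List.countP_append, Sum.isRight_inl]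
        simp
        omega
      · simp only [List.countP_cons, List.flatMap_cons, List.countP_append, Sum.isRight_inr, hG]
        simp
        omega

theorem length_le_flatMap {X Y : Type*} (f : X → List Y) (L : List X) (h : ∀ z ∈ L, f z ≠ []) :
    L.length ≤ (L.flatMap f).length := by
  induction L with
  | nil => simp
  | cons z L ih =>
    have h1 := ih (fun y hy => h y (by simp [hy]))
    have h2 : 0 < (f z).length := List.length_pos_iff.2 (h z (by simp))
    rw [List.flatMap_cons, List.length_append, List.length_cons]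
    omega

theorem pat_toList (M : ℕ) (x : ℕ → S) : FreeMonoid.toList (pat M x) =
    (segs M x).flatMap fun P => P.1.map (fun y => Sum.inl y.ι) ++ [Sum.inr P.2] := by
  simp only [pat, word, FreeMonoid.toList_ofList, List.map_flatMap]
  congr 1
  funext P
  simp [piece, emb]

theorem pat_primitive (M : ℕ) (x : ℕ → S) : MorphicallyPrimitive (pat M x) := by
  rintro ⟨β, _, hlt, φ, ψ, hφ, hψ, hφα, hψβ⟩
  set G : ℕ+ ⊕ S → List (ℕ+ ⊕ S) := fun z => FreeMonoid.toList (ψ (φ (FreeMonoid.of z))) with hGdef
  have hG : ∀ B : S, G (Sum.inr B) = [Sum.inr B] := by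
    intro B
    have e1 : φ (FreeMonoid.of (Sum.inr B)) = FreeMonoid.of (Sum.inr B) := hφ B
    have e2 : ψ (FreeMonoid.of (Sum.inr B)) = FreeMonoid.of (Sum.inr B) := hψ B
    simp [hGdef, e1, e2]
  have hfix : (FreeMonoid.toList (pat M x)).flatMap G = FreeMonoid.toList (pat M x) := by
    have := toList_hom (ψ.comp φ) (FreeMonoid.toList (pat M x))
    simp only [FreeMonoid.ofList_toList, MonoidHom.comp_apply] at this
    rw [hφα, hψβ] at this
    exact this.symm
  have hfree : ∀ n : ℕ+, Sum.inl n ∈ FreeMonoid.toList (pat M x) → ∀ B : S,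
      Sum.inr B ∉ G (Sum.inl n) := by
    intro n hn B hB
    have h1 := letters_ge' G hG _ n hn
    rw [hfix] at h1
    have h2 : 0 < (G (Sum.inl n)).countP (fun z => z.isRight) :=
      List.countP_pos_iff.2 ⟨_, hB, rfl⟩
    omega
  have hmem : ∀ P ∈ segs M x, ∀ y ∈ P.1, Sum.inl (V.ι y) ∈ FreeMonoid.toList (pat M x) := by
    intro P hP y hy
    exact mem_pat_iff.2 ⟨_, mem_word hP hy, rfl⟩
  have hpeel := peel (fun W => W.flatMap fun y => G (Sum.inl y.ι))
    (fun W => W.map fun y => Sum.inl y.ι) (segs M x)
    (by
      intro P hP B hB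
      obtain ⟨y, hy, hyB⟩ := List.mem_flatMap.1 hB
      exact hfree _ (hmem P hP y hy) B hyB)
    (by
      intro P hP B hB
      simp at hB)
    (by
      have h1 := hfix
      rw [pat_toList, List.flatMap_assoc] at h1
      rw [← h1]
      congr 1
      funext P
      simp [List.flatMap_map, hG])
  have : Nonempty V := ⟨.u⟩
  set ρ : ℕ+ ⊕ S → V := Sum.elim (Function.invFun V.ι) (fun _ => .u) with hρ
  have hρι : ∀ y : V, ρ (Sum.inl y.ι) = y := fun y =>
    Function.leftInverse_invFun V.ι_injective y
  set g : V → List V := fun y => (G (Sum.inl y.ι)).map ρ with hg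
  have heqs : Eqs M g := by
    apply eqs_of_segs (x := x)
    intro P hP
    have h1 := congrArg (List.map ρ) (hpeel P hP)
    simp only [List.map_flatMap, List.map_map] at h1
    rw [hg, h1]
    conv_rhs => rw [← List.map_id P.1]
    congr 1
    funext y
    exact hρι y
  have hne : ∀ z ∈ FreeMonoid.toList (pat M x), FreeMonoid.toList (φ (FreeMonoid.of z)) ≠ [] := by
    intro z hz h0
    obtain ⟨y, hy, rfl⟩ := mem_pat_iff.1 hz
    have h0' : φ (FreeMonoid.of (emb y)) = 1 := FreeMonoid.toList.injective h0
    rcases y with y | A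
    · rw [word, List.mem_flatMap] at hy
      obtain ⟨P, hP, hyP⟩ := hy
      have hy' : y ∈ P.1 := by simpa [piece] using hyP
      have h1 : g y = [y] := heqs.fixed (occurs_of_mem hP hy')
      have h2 : G (Sum.inl y.ι) = [] := by
        have h3 : φ (FreeMonoid.of (Sum.inl y.ι)) = 1 := h0'
        simp [hGdef, h3]
      simp [hg, h2] at h1
    · have h3 : φ (FreeMonoid.of (Sum.inr A)) = FreeMonoid.of (Sum.inr A) := hφ A
      rw [show emb (Sum.inr A : V ⊕ S) = Sum.inr A from rfl, h3] at h0
      simp at h0
  have hlen := length_le_flatMap (fun z => FreeMonoid.toList (φ (FreeMonoid.of z)))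
    (FreeMonoid.toList (pat M x)) hne
  have h4 := toList_hom φ (FreeMonoid.toList (pat M x))
  rw [FreeMonoid.ofList_toList, hφα] at h4
  rw [← h4] at hlen
  exact absurd hlt (not_lt.2 hlen)

end Pool.Agent.MP0fc137
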